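import Pool.Agent.MP_f12303_co.Sh.Mono

set_option autoImplicit false

open Pool.Agent.MP_f12303_co

/-- For minimal subgraphs of the lattice the `n`-th root of the number of points in a cube grows
by at least one when the radius grows by one, and the constant one is attained. -/
theorem Pool.Agent.MP_f12303_co.Old.SharpMonotone.result (n : ℕ) (hn : 1 ≤ n) (k : ℕ) :
    IsLeast {d : ℝ | ∃ (M : Set (Fin n → ℤ)) (x : Fin n → ℤ), IsMinimalSubgraph M ∧
      (M ∩ cube x k).Nonempty ∧
      d = ((M ∩ cube x (k + 1)).ncard : ℝ) ^ (1 / n : ℝ) -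
        ((M ∩ cube x k).ncard : ℝ) ^ (1 / n : ℝ)} 1 := by
  have hn' : n ≠ 0 := by omega
  have c0 : ∀ (x : Fin n → ℤ) (m : ℕ), cube x m = box x m := fun x m => by
    rw [cube_eq_box x m.cast_nonneg, Nat.floor_natCast]
  have c1 : ∀ x : Fin n → ℤ, cube x (k + 1) = box x (k + 1) := fun x => by
    rw [← c0, Nat.cast_succ]
  simp only [c0, c1, one_div]
  refine ⟨⟨_, 0, (Sh.orthant hn').1, ⟨0, fun _ => le_rfl, mem_box.2 fun i => by simp⟩, ?_⟩, ?_⟩
  · rw [(Sh.orthant hn').2, (Sh.orthant hn').2]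
    push_cast
    ring
  · rintro d ⟨M, x, hM, hne, rfl⟩
    have := Sh.growth hn' hM.locMin x k hne
    linarith
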